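import Pool.Agent.Helper51.CD.Contr

/-!
# Flag 2-spheres: definitions and basic facts

`Sph G A`: the clique complex of the graph `G` on the finite set `A` of vertices is a flag
triangulation of the 2-sphere: every edge has exactly two common neighbours, not adjacent to each
other, the links of the vertices and the graph itself are connected, and the Euler characteristic
is two (in the form `∑ (6 - deg) = 12`).
-/

open Finset

namespace Pool.Agent.Helper1.S2

open Pool.Agent.Helper51.CD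

variable {X : Type}

theorem mem_nbr {G : SimpleGraph X} {A : Finset X} {u x : X} :
    x ∈ nbr G A u ↔ x ∈ A ∧ G.Adj u x := by
  classical
  unfold nbr
  rw [mem_filter]

theorem mem_nbr2 {G : SimpleGraph X} {A : Finset X} {v w x : X} :
    x ∈ nbr2 G A v w ↔ x ∈ A ∧ G.Adj v x ∧ G.Adj w x := by
  classical
  unfold nbr2
  rw [mem_filter]

/-- `B` is nonempty and connected in `G`: a property that holds at one vertex of `B` and passes
along the edges in `B` holds on `B`. -/
structure Conn (G : SimpleGraph X) (B : Finset X) : Prop where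
  ne : B.Nonempty
  cl : ∀ S : X → Prop, (∃ x ∈ B, S x) → (∀ x ∈ B, S x → ∀ y ∈ B, G.Adj x y → S y) → ∀ x ∈ B, S x

/-- `x` and `y` are the common neighbours of `u` and `w` in `A`, and they are not adjacent. -/
structure Two (G : SimpleGraph X) (A : Finset X) (u w x y : X) : Prop where
  hx : x ∈ A
  hy : y ∈ A
  ne : x ≠ y
  nadj : ¬ G.Adj x y
  ux : G.Adj u x
  wx : G.Adj w x
  uy : G.Adj u y
  wy : G.Adj w y
  only : ∀ z ∈ A, G.Adj u z → G.Adj w z → z = x ∨ z = y

/-- The clique complex of `G` on `A` is a flag 2-sphere. -/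
structure Sph (G : SimpleGraph X) (A : Finset X) : Prop where
  two : ∀ u ∈ A, ∀ w ∈ A, G.Adj u w → ∃ x y, Two G A u w x y
  link : ∀ u ∈ A, Conn G (nbr G A u)
  conn : Conn G A
  euler : ∑ u ∈ A, (nbr G A u).card + 12 = 6 * A.card

theorem Two.symm {G : SimpleGraph X} {A : Finset X} {u w x y : X} (h : Two G A u w x y) :
    Two G A w u x y :=
  ⟨h.hx, h.hy, h.ne, h.nadj, h.wx, h.ux, h.wy, h.uy, fun z hz h1 h2 => h.only z hz h2 h1⟩

theorem Two.swap {G : SimpleGraph X} {A : Finset X} {u w x y : X} (h : Two G A u w x y) :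
    Two G A u w y x :=
  ⟨h.hy, h.hx, h.ne.symm, fun e => h.nadj e.symm, h.uy, h.wy, h.ux, h.wx,
    fun z hz h1 h2 => (h.only z hz h1 h2).symm⟩

/-- Two different common neighbours are the common neighbours. -/
theorem Sph.two' {G : SimpleGraph X} {A : Finset X} (h : Sph G A) {u w x y : X} (hu : u ∈ A)
    (hw : w ∈ A) (huw : G.Adj u w) (hx : x ∈ A) (hy : y ∈ A) (hne : x ≠ y) (ux : G.Adj u x)
    (wx : G.Adj w x) (uy : G.Adj u y) (wy : G.Adj w y) : Two G A u w x y := by
  obtain ⟨x', y', h1⟩ := h.two u hu w hw huw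
  rcases h1.only x hx ux wx with rfl | rfl
  · rcases h1.only y hy uy wy with rfl | rfl
    · exact absurd rfl hne
    · exact h1
  · rcases h1.only y hy uy wy with rfl | rfl
    · exact h1.swap
    · exact absurd rfl hne

/-- The second common neighbour. -/
theorem Sph.other {G : SimpleGraph X} {A : Finset X} (h : Sph G A) {u w x : X} (hu : u ∈ A)
    (hw : w ∈ A) (huw : G.Adj u w) (hx : x ∈ A) (ux : G.Adj u x) (wx : G.Adj w x) :
    ∃ y, Two G A u w x y := by
  obtain ⟨x', y', h1⟩ := h.two u hu w hw huw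
  rcases h1.only x hx ux wx with rfl | rfl
  · exact ⟨y', h1⟩
  · exact ⟨x', h1.swap⟩

theorem Two.nbr2_eq [DecidableEq X] {G : SimpleGraph X} {A : Finset X} {u w x y : X}
    (h : Two G A u w x y) : nbr2 G A u w = {x, y} := by
  ext z
  rw [mem_nbr2, mem_insert, mem_singleton]
  constructor
  · rintro ⟨h1, h2, h3⟩
    exact h.only z h1 h2 h3
  · rintro (rfl | rfl)
    · exact ⟨h.hx, h.ux, h.wx⟩
    · exact ⟨h.hy, h.uy, h.wy⟩

theorem Conn.image [DecidableEq X] {G G' : SimpleGraph X} {B : Finset X} (h : Conn G B)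
    (f : X → X) (hf : ∀ a ∈ B, ∀ b ∈ B, G.Adj a b → f a = f b ∨ G'.Adj (f a) (f b)) :
    Conn G' (B.image f) := by
  refine ⟨h.ne.image f, fun S hS hcl x hx => ?_⟩
  obtain ⟨y, hy, rfl⟩ := mem_image.1 hx
  refine h.cl (fun z => S (f z)) ?_ ?_ y hy
  · obtain ⟨x0, hx0, h0⟩ := hS
    obtain ⟨y0, hy0, rfl⟩ := mem_image.1 hx0
    exact ⟨y0, hy0, h0⟩
  · intro a ha hSa b hb hab
    rcases hf a ha b hb hab with h1 | h1
    · rw [← h1]
      exact hSa
    · exact hcl _ (mem_image_of_mem f ha) hSa _ (mem_image_of_mem f hb) h1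

theorem Conn.mono {G G' : SimpleGraph X} {B : Finset X} (h : Conn G B)
    (hf : ∀ a ∈ B, ∀ b ∈ B, G.Adj a b → G'.Adj a b) : Conn G' B :=
  ⟨h.ne, fun S hS hcl x hx => h.cl S hS (fun a ha hSa b hb hab => hcl a ha hSa b hb
    (hf a ha b hb hab)) x hx⟩

theorem Conn.union [DecidableEq X] {G : SimpleGraph X} {B C : Finset X} (hB : Conn G B)
    (hC : Conn G C) (h : ∃ x ∈ B, x ∈ C) : Conn G (B ∪ C) := by
  obtain ⟨z, hzB, hzC⟩ := h
  refine ⟨hB.ne.mono subset_union_left, fun S hS hcl => ?_⟩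
  have key : ∀ D E : Finset X, D ⊆ B ∪ C → E ⊆ B ∪ C → Conn G D → Conn G E → z ∈ D → z ∈ E →
      (∃ x ∈ D, S x) → (∀ x ∈ D, S x) ∧ ∀ x ∈ E, S x := by
    intro D E hD hE h1 h2 hzD hzE h3
    have h4 : ∀ x ∈ D, S x := h1.cl S h3
      (fun a ha hSa b hb hab => hcl a (hD ha) hSa b (hD hb) hab)
    exact ⟨h4, h2.cl S ⟨z, hzE, h4 z hzD⟩
      (fun a ha hSa b hb hab => hcl a (hE ha) hSa b (hE hb) hab)⟩
  obtain ⟨x0, hx0, h0⟩ := hS
  intro x hx
  rcases mem_union.1 hx0 with h1 | h1
  · obtain ⟨h2, h3⟩ := key B C subset_union_left subset_union_right hB hC hzB hzC ⟨x0, h1, h0⟩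
    rcases mem_union.1 hx with h4 | h4
    · exact h2 x h4
    · exact h3 x h4
  · obtain ⟨h2, h3⟩ := key C B subset_union_right subset_union_left hC hB hzC hzB ⟨x0, h1, h0⟩
    rcases mem_union.1 hx with h4 | h4
    · exact h3 x h4
    · exact h2 x h4

/-- The number of ordered adjacent pairs is even. -/
theorem handshake (G : SimpleGraph X) (C : Finset X) :
    (∑ z ∈ C, ((nbr G C z).card : ZMod 2)) = 0 := by
  classical
  have h1 : ∑ z ∈ C, ((nbr G C z).card : ZMod 2) =
      ∑ p ∈ (C ×ˢ C).filter (fun p => G.Adj p.1 p.2), (1 : ZMod 2) := by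
    rw [sum_filter, sum_product]
    refine sum_congr rfl fun z _ => ?_
    rw [← sum_filter, sum_const, nsmul_eq_mul, mul_one]
    rfl
  rw [h1]
  refine sum_involution (fun p _ => (p.2, p.1)) ?_ ?_ ?_ ?_
  · intro p _
    decide
  · rintro ⟨a, b⟩ hp _ he
    rw [mem_filter] at hp
    simp only [Prod.mk.injEq] at he
    exact hp.2.ne he.1.symm
  · rintro ⟨a, b⟩ hp
    simp only [mem_filter, mem_product] at hp ⊢
    exact ⟨⟨hp.1.2, hp.1.1⟩, hp.2.symm⟩
  · intro p _
    rfl

/-- The link of a vertex without one of its vertices is connected. -/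
theorem Sph.link_erase [DecidableEq X] {G : SimpleGraph X} {A : Finset X} (h : Sph G A) {v w : X}
    (hv : v ∈ A) (hw : w ∈ A) (hvw : G.Adj v w) : Conn G ((nbr G A v).erase w) := by
  obtain ⟨x, y, h1⟩ := h.two v hv w hw hvw
  have hxB : x ∈ (nbr G A v).erase w := mem_erase.2 ⟨h1.wx.ne.symm, mem_nbr.2 ⟨h1.hx, h1.ux⟩⟩
  have hyB : y ∈ (nbr G A v).erase w := mem_erase.2 ⟨h1.wy.ne.symm, mem_nbr.2 ⟨h1.hy, h1.uy⟩⟩
  have hwN : w ∈ nbr G A v := mem_nbr.2 ⟨hw, hvw⟩
  -- a closed property holds at `x` or at `y`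
  have step1 : ∀ S : X → Prop, (∃ z ∈ (nbr G A v).erase w, S z) →
      (∀ a ∈ (nbr G A v).erase w, S a → ∀ b ∈ (nbr G A v).erase w, G.Adj a b → S b) →
      S x ∨ S y := by
    intro S hS hcl
    by_contra hcon
    push Not at hcon
    obtain ⟨z, hz, hSz⟩ := hS
    have h2 := (h.link v hv).cl (fun a => S a ∧ a ≠ w) ⟨z, (mem_erase.1 hz).2, hSz,
      (mem_erase.1 hz).1⟩ (by
        rintro a ha ⟨hSa, haw⟩ b hb hab
        have hbw : b ≠ w := by
          rintro rfl
          rw [mem_nbr] at ha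
          rcases h1.only a ha.1 ha.2 hab.symm with rfl | rfl
          · exact hcon.1 hSa
          · exact hcon.2 hSa
        exact ⟨hcl a (mem_erase.2 ⟨haw, ha⟩) hSa b (mem_erase.2 ⟨hbw, hb⟩) hab, hbw⟩) w hwN
    exact h2.2 rfl
  -- parity: not exactly one of `x` and `y`
  have step2 : ∀ S : X → Prop,
      (∀ a ∈ (nbr G A v).erase w, S a → ∀ b ∈ (nbr G A v).erase w, G.Adj a b → S b) →
      ∀ a ∈ (nbr G A v).erase w, ∀ b ∈ (nbr G A v).erase w, Two G A v w a b → S a → S b := by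
    classical
    intro S hcl a ha b hb hab hSa
    by_contra hSb
    set C := ((nbr G A v).erase w).filter S with hC
    have hdeg : ∀ z ∈ C, ((nbr G C z).card : ZMod 2) = if z = a then 1 else 0 := by
      intro z hz
      rw [hC, mem_filter] at hz
      obtain ⟨hzB, hSz⟩ := hz
      have hzw : z ≠ w := (mem_erase.1 hzB).1
      obtain ⟨hzA, hvz⟩ := mem_nbr.1 (mem_erase.1 hzB).2
      by_cases hza : z = a
      · subst hza
        rw [if_pos rfl]
        obtain ⟨z', h5⟩ := h.other hv hzA hvz hw hvw hab.wx.symm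
        have h6 : nbr G C z = {z'} := by
          ext t
          rw [mem_nbr, mem_singleton]
          constructor
          · rintro ⟨ht, hzt⟩
            rw [hC, mem_filter] at ht
            obtain ⟨htA, hvt⟩ := mem_nbr.1 (mem_erase.1 ht.1).2
            rcases h5.only t htA hvt hzt with rfl | rfl
            · exact absurd rfl (mem_erase.1 ht.1).1
            · rfl
          · rintro rfl
            have h7 : t ∈ (nbr G A v).erase w := mem_erase.2 ⟨h5.ne.symm, mem_nbr.2 ⟨h5.hy, h5.uy⟩⟩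
            exact ⟨by rw [hC, mem_filter]; exact ⟨h7, hcl z hzB hSz t h7 h5.wy⟩, h5.wy⟩
        rw [h6, card_singleton, Nat.cast_one]
      · rw [if_neg hza]
        have hzb : z ≠ b := fun e => hSb (e ▸ hSz)
        obtain ⟨s, t, h5⟩ := h.two v hv z hzA hvz
        have hzw' : ¬ G.Adj z w := by
          intro hzw'
          rcases hab.only z hzA hvz hzw'.symm with h8 | h8
          · exact hza h8
          · exact hzb h8
        have hs : s ≠ w := fun e => hzw' (e ▸ h5.wx)
        have ht : t ≠ w := fun e => hzw' (e ▸ h5.wy)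
        have h6 : nbr G C z = {s, t} := by
          ext r
          rw [mem_nbr, mem_insert, mem_singleton]
          constructor
          · rintro ⟨hr, hzr⟩
            rw [hC, mem_filter] at hr
            obtain ⟨hrA, hvr⟩ := mem_nbr.1 (mem_erase.1 hr.1).2
            exact h5.only r hrA hvr hzr
          · rintro (rfl | rfl)
            · have h7 : r ∈ (nbr G A v).erase w := mem_erase.2 ⟨hs, mem_nbr.2 ⟨h5.hx, h5.ux⟩⟩
              exact ⟨by rw [hC, mem_filter]; exact ⟨h7, hcl z hzB hSz r h7 h5.wx⟩, h5.wx⟩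
            · have h7 : r ∈ (nbr G A v).erase w := mem_erase.2 ⟨ht, mem_nbr.2 ⟨h5.hy, h5.uy⟩⟩
              exact ⟨by rw [hC, mem_filter]; exact ⟨h7, hcl z hzB hSz r h7 h5.wy⟩, h5.wy⟩
        rw [h6, card_pair h5.ne]
        decide
    have h9 := handshake G C
    rw [sum_congr rfl hdeg, sum_ite_eq', if_pos (by rw [hC, mem_filter]; exact ⟨ha, hSa⟩)] at h9
    exact one_ne_zero h9
  refine ⟨⟨x, hxB⟩, fun S hS hcl z hz => ?_⟩
  have hxy : S x ∧ S y := by
    rcases step1 S hS hcl with h2 | h2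
    · exact ⟨h2, step2 S hcl x hxB y hyB h1 h2⟩
    · exact ⟨step2 S hcl y hyB x hxB h1.swap h2, h2⟩
  by_contra hz'
  rcases step1 (fun a => ¬ S a) ⟨z, hz, hz'⟩ (fun a ha hSa b hb hab hSb =>
    hSa (hcl b hb hSb a ha hab.symm)) with h2 | h2
  · exact h2 hxy.1
  · exact h2 hxy.2

/-- Four cyclically adjacent vertices of the link are the link. -/
theorem Sph.four {G : SimpleGraph X} {A : Finset X} (h : Sph G A) {s a b c d : X} (hs : s ∈ A)
    (ha : a ∈ A) (hb : b ∈ A) (hc : c ∈ A) (hd : d ∈ A) (sa : G.Adj s a) (sb : G.Adj s b)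
    (sc : G.Adj s c) (sd : G.Adj s d) (ab : G.Adj a b) (bc : G.Adj b c) (cd : G.Adj c d)
    (da : G.Adj d a) (hac : a ≠ c) (hbd : b ≠ d) :
    ∀ z ∈ nbr G A s, z = a ∨ z = b ∨ z = c ∨ z = d := by
  refine (h.link s hs).cl _ ⟨a, mem_nbr.2 ⟨ha, sa⟩, Or.inl rfl⟩ ?_
  rintro x hx hx' y hy hxy
  rw [mem_nbr] at hx hy
  rcases hx' with rfl | rfl | rfl | rfl
  · rcases (h.two' hs ha sa hb hd hbd sb ab sd da.symm).only y hy.1 hy.2 hxy with h1 | h1
    · exact Or.inr (Or.inl h1)
    · exact Or.inr (Or.inr (Or.inr h1))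
  · rcases (h.two' hs hb sb ha hc hac sa ab.symm sc bc).only y hy.1 hy.2 hxy with h1 | h1
    · exact Or.inl h1
    · exact Or.inr (Or.inr (Or.inl h1))
  · rcases (h.two' hs hc sc hb hd hbd sb bc.symm sd cd).only y hy.1 hy.2 hxy with h1 | h1
    · exact Or.inr (Or.inl h1)
    · exact Or.inr (Or.inr (Or.inr h1))
  · rcases (h.two' hs hd sd ha hc hac sa da sc cd.symm).only y hy.1 hy.2 hxy with h1 | h1
    · exact Or.inl h1
    · exact Or.inr (Or.inr (Or.inl h1))

end Pool.Agent.Helper1.S2
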