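import Pool.Agent.Helper51.CD.Contr

/-!
# Suspensions and the octahedron are tame
-/

open Finset

namespace Pool.Agent.Helper1.S2

open Pool.Agent.Helper51.CD

variable {X : Type}

theorem mem_fam_empty {G : SimpleGraph X} {A : Finset X} {τ : Finset X} :
    τ ∈ fam G ∅ A ↔ τ ⊆ A ∧ G.IsClique (τ : Set X) := by
  constructor
  · rintro ⟨_, h1, h2⟩
    exact ⟨fun x hx => (h1 x hx).resolve_left (notMem_empty x), h2⟩
  · rintro ⟨h1, h2⟩
    exact ⟨empty_subset _, fun x hx => Or.inr (h1 hx), h2⟩

/-- Two points that are not adjacent. -/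
theorem tame_pair [DecidableEq X] {G : SimpleGraph X} {p q : X} (hpq : p ≠ q)
    (hn : ¬ G.Adj p q) : TameK G (fam G ∅ {p, q}) := by
  have h : fam G ∅ {p, q} = ({∅, {p}, {q}} : Set (Finset X)) := by
    ext τ
    rw [mem_fam_empty]
    simp only [Set.mem_insert_iff, Set.mem_singleton_iff]
    constructor
    · rintro ⟨h1, h2⟩
      by_cases hp : p ∈ τ
      · by_cases hq : q ∈ τ
        · exact absurd (h2 (by exact_mod_cast hp) (by exact_mod_cast hq) hpq) hn
        · right; left
          ext x
          constructor
          · intro hx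
            have := h1 hx
            rw [mem_insert, mem_singleton] at this
            rcases this with rfl | rfl
            · exact mem_singleton_self _
            · exact absurd hx hq
          · intro hx
            rw [mem_singleton] at hx
            exact hx ▸ hp
      · by_cases hq : q ∈ τ
        · right; right
          ext x
          constructor
          · intro hx
            have := h1 hx
            rw [mem_insert, mem_singleton] at this
            rcases this with rfl | rfl
            · exact absurd hx hp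
            · exact mem_singleton_self _
          · intro hx
            rw [mem_singleton] at hx
            exact hx ▸ hq
        · left
          rw [eq_empty_iff_forall_notMem]
          intro x hx
          have := h1 hx
          rw [mem_insert, mem_singleton] at this
          rcases this with rfl | rfl
          · exact hp hx
          · exact hq hx
    · rintro (rfl | rfl | rfl)
      · simp
      · simp
      · simp
  rw [h]
  exact TameK.pair G p q hpq hn

/-- The suspension of a tame clique complex. -/
theorem tame_susp [DecidableEq X] {G : SimpleGraph X} {B : Finset X} {p q : X} (hpq : p ≠ q)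
    (hn : ¬ G.Adj p q) (hp : ∀ z ∈ B, G.Adj p z) (hq : ∀ z ∈ B, G.Adj q z)
    (h : TameK G (fam G ∅ B)) : TameK G (fam G ∅ (insert p (insert q B))) := by
  have hpB : p ∉ B := fun h => G.loopless.irrefl p (hp p h)
  have hqB : q ∉ B := fun h => G.loopless.irrefl q (hq q h)
  have c1 : ∀ u : X, (∀ z ∈ B, G.Adj u z) → u ∉ B →
      TameK G {τ : Finset X | τ.erase u ∈ fam G ∅ B} := by
    intro u hu huB
    refine TameK.cone G _ u (fun τ hτ => ?_) h
    rw [mem_fam_empty] at hτ
    exact ⟨fun h1 => huB (hτ.1 h1), fun x hx => hu x (hτ.1 hx)⟩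
  have h1 := c1 p hp hpB
  have h2 := c1 q hq hqB
  have h3 : {τ : Finset X | τ.erase p ∈ fam G ∅ B} ∩ {τ : Finset X | τ.erase q ∈ fam G ∅ B} =
      fam G ∅ B := by
    ext τ
    show (τ.erase p ∈ fam G ∅ B ∧ τ.erase q ∈ fam G ∅ B) ↔ _
    constructor
    · rintro ⟨h4, h5⟩
      have h6 : q ∉ τ := by
        intro h7
        rw [mem_fam_empty] at h4
        exact hqB (h4.1 (mem_erase.2 ⟨hpq.symm, h7⟩))
      rwa [erase_eq_of_notMem h6] at h5
    · intro h4
      have h5 := mem_fam_empty.1 h4
      rw [erase_eq_of_notMem (fun h6 => hpB (h5.1 h6)),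
        erase_eq_of_notMem (fun h6 => hqB (h5.1 h6))]
      exact ⟨h4, h4⟩
  have h4 : {τ : Finset X | τ.erase p ∈ fam G ∅ B} ∪ {τ : Finset X | τ.erase q ∈ fam G ∅ B} =
      fam G ∅ (insert p (insert q B)) := by
    have key : ∀ u : X, (∀ z ∈ B, G.Adj u z) → ∀ τ : Finset X, τ.erase u ∈ fam G ∅ B →
        τ ⊆ insert u B ∧ G.IsClique (τ : Set X) := by
      intro u hu τ hτ
      rw [mem_fam_empty] at hτ
      refine ⟨fun x hx => ?_, ?_⟩
      · by_cases hxu : x = u
        · exact hxu ▸ mem_insert_self _ _
        · exact mem_insert_of_mem (hτ.1 (mem_erase.2 ⟨hxu, hx⟩))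
      · intro x hx y hy hxy
        have hx' : x ∈ τ := by exact_mod_cast hx
        have hy' : y ∈ τ := by exact_mod_cast hy
        by_cases hxu : x = u
        · have hyu : y ≠ u := fun e => hxy (hxu.trans e.symm)
          rw [hxu]
          exact hu y (hτ.1 (mem_erase.2 ⟨hyu, hy'⟩))
        · by_cases hyu : y = u
          · rw [hyu]
            exact (hu x (hτ.1 (mem_erase.2 ⟨hxu, hx'⟩))).symm
          · exact hτ.2 (by exact_mod_cast mem_erase.2 ⟨hxu, hx'⟩)
              (by exact_mod_cast mem_erase.2 ⟨hyu, hy'⟩) hxy
    ext τ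
    show (τ.erase p ∈ fam G ∅ B ∨ τ.erase q ∈ fam G ∅ B) ↔ _
    rw [mem_fam_empty (A := insert p (insert q B))]
    constructor
    · rintro (h5 | h5)
      · obtain ⟨h6, h7⟩ := key p hp τ h5
        exact ⟨h6.trans (insert_subset_insert _ (subset_insert _ _)), h7⟩
      · obtain ⟨h6, h7⟩ := key q hq τ h5
        exact ⟨h6.trans (subset_insert _ _), h7⟩
    · rintro ⟨h5, h6⟩
      by_cases hpt : p ∈ τ
      · have hqt : q ∉ τ := fun hqt =>
          hn (h6 (by exact_mod_cast hpt) (by exact_mod_cast hqt) hpq)
        left
        rw [mem_fam_empty]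
        refine ⟨fun x hx => ?_, h6.subset (by exact_mod_cast erase_subset _ _)⟩
        rw [mem_erase] at hx
        have := h5 hx.2
        rw [mem_insert, mem_insert] at this
        rcases this with h7 | h7 | h7
        · exact absurd h7 hx.1
        · exact absurd (h7 ▸ hx.2) hqt
        · exact h7
      · right
        rw [mem_fam_empty]
        refine ⟨fun x hx => ?_, h6.subset (by exact_mod_cast erase_subset _ _)⟩
        rw [mem_erase] at hx
        have := h5 hx.2
        rw [mem_insert, mem_insert] at this
        rcases this with h7 | h7 | h7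
        · exact absurd (h7 ▸ hx.2) hpt
        · exact absurd h7 hx.1
        · exact h7
  rw [← h4]
  refine TameK.union G _ _ h1 h2 ?_
  rw [h3]
  exact h

/-- **The octahedron is tame.** -/
theorem tame_octa [DecidableEq X] {G : SimpleGraph X} {v x a b c d : X}
    (hvx : v ≠ x) (hac : a ≠ c) (hbd : b ≠ d)
    (nvx : ¬ G.Adj v x) (nac : ¬ G.Adj a c) (nbd : ¬ G.Adj b d)
    (hva : G.Adj v a) (hvb : G.Adj v b) (hvc : G.Adj v c) (hvd : G.Adj v d)
    (hxa : G.Adj x a) (hxb : G.Adj x b) (hxc : G.Adj x c) (hxd : G.Adj x d)
    (hab : G.Adj a b) (hbc : G.Adj b c) (hcd : G.Adj c d) (hda : G.Adj d a) :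
    TameK G (fam G ∅ {v, x, a, c, b, d}) := by
  refine tame_susp hvx nvx ?_ ?_ (tame_susp hac nac ?_ ?_ (tame_pair hbd nbd))
  · intro z hz
    simp only [mem_insert, mem_singleton] at hz
    rcases hz with rfl | rfl | rfl | rfl
    · exact hva
    · exact hvc
    · exact hvb
    · exact hvd
  · intro z hz
    simp only [mem_insert, mem_singleton] at hz
    rcases hz with rfl | rfl | rfl | rfl
    · exact hxa
    · exact hxc
    · exact hxb
    · exact hxd
  · intro z hz
    simp only [mem_insert, mem_singleton] at hz
    rcases hz with rfl | rfl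
    · exact hab
    · exact hda.symm
  · intro z hz
    simp only [mem_insert, mem_singleton] at hz
    rcases hz with rfl | rfl
    · exact hbc.symm
    · exact hcd

end Pool.Agent.Helper1.S2
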