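import Pool.Agent.Helper1.S2.Basic
import Pool.Agent.Helper1.S2.Octa
import Pool.Agent.Helper51.CD.CertDefs

/-!
# Flag 2-spheres: from the Euler characteristic to the sum of the degrees
-/

open Finset

namespace Pool.Agent.Helper1.S2

open Pool.Agent.Helper51.CD Pool.Agent.Helper51.CD.Cube

variable {X : Type}

/-- The clique complex of `G` on `A` is a flag triangulation of the 2-sphere: a connected closed
surface (every edge lies in exactly two triangles, the links of the vertices are connected) of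
Euler characteristic two (reduced Euler characteristic `-1`, by cardinality), without cliques of
four vertices. -/
structure Sphere2 (G : SimpleGraph X) (A : Finset X) : Prop where
  conn : (G.induce (A : Set X)).Connected
  edge : ∀ u ∈ A, ∀ v ∈ A, G.Adj u v → ∃ x ∈ A, ∃ y ∈ A, x ≠ y ∧ ¬ G.Adj x y ∧
    ∀ z ∈ A, (G.Adj z u ∧ G.Adj z v) ↔ (z = x ∨ z = y)
  link : ∀ u ∈ A, (G.induce {x | x ∈ A ∧ G.Adj u x}).Connected
  euler : ∑ τ ∈ cliquesIn G A, (-1 : ℤ) ^ τ.card = -1

open scoped Classical in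
/-- The vertices of `A` adjacent to all vertices of `ρ`. -/
noncomputable def nbrsOf (G : SimpleGraph X) (A ρ : Finset X) : Finset X :=
  A.filter (fun z => ∀ u ∈ ρ, G.Adj u z)

theorem mem_nbrsOf {G : SimpleGraph X} {A ρ : Finset X} {z : X} :
    z ∈ nbrsOf G A ρ ↔ z ∈ A ∧ ∀ u ∈ ρ, G.Adj u z := by
  classical
  unfold nbrsOf
  rw [mem_filter]

/-- The cliques with `k` vertices in `A`. -/
noncomputable def cl (G : SimpleGraph X) (A : Finset X) (k : ℕ) : Finset (Finset X) :=
  (cliquesIn G A).filter (fun τ => τ.card = k)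

theorem mem_cl {G : SimpleGraph X} {A : Finset X} {k : ℕ} {τ : Finset X} :
    τ ∈ cl G A k ↔ (τ ⊆ A ∧ G.IsClique (τ : Set X)) ∧ τ.card = k := by
  unfold cl
  rw [mem_filter, mem_cliquesIn]

/-- Pairs of a clique with `k` vertices and a vertex of its link. -/
theorem clique_count (G : SimpleGraph X) (A : Finset X) (k : ℕ) :
    (k + 1) * (cl G A (k + 1)).card = ∑ ρ ∈ cl G A k, (nbrsOf G A ρ).card := by
  classical
  have h1 : (k + 1) * (cl G A (k + 1)).card = ∑ τ ∈ cl G A (k + 1), τ.card := by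
    rw [sum_congr rfl (fun τ hτ => (mem_cl.1 hτ).2), sum_const, smul_eq_mul, mul_comm]
  rw [h1, ← card_sigma, ← card_sigma]
  refine card_bij' (fun p _ => ⟨p.1.erase p.2, p.2⟩) (fun p _ => ⟨insert p.2 p.1, p.2⟩)
    ?_ ?_ ?_ ?_
  · rintro ⟨τ, z⟩ h
    rw [mem_sigma] at h ⊢
    obtain ⟨h2, h3⟩ := h
    dsimp only at h2 h3 ⊢
    obtain ⟨⟨h4, h5⟩, h6⟩ := mem_cl.1 h2
    refine ⟨mem_cl.2 ⟨⟨(erase_subset _ _).trans h4, h5.subset (by
      exact_mod_cast (erase_subset z τ))⟩, by rw [card_erase_of_mem h3, h6]; rfl⟩, ?_⟩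
    refine mem_nbrsOf.2 ⟨h4 h3, fun u hu => ?_⟩
    rw [mem_erase] at hu
    exact h5 (by exact_mod_cast hu.2) (by exact_mod_cast h3) hu.1
  · rintro ⟨ρ, z⟩ h
    rw [mem_sigma] at h ⊢
    obtain ⟨h2, h3⟩ := h
    dsimp only at h2 h3 ⊢
    obtain ⟨⟨h4, h5⟩, h6⟩ := mem_cl.1 h2
    obtain ⟨h7, h8⟩ := mem_nbrsOf.1 h3
    have h9 : z ∉ ρ := fun h => G.loopless.irrefl z (h8 z h)
    refine ⟨mem_cl.2 ⟨⟨insert_subset h7 h4, ?_⟩, by rw [card_insert_of_notMem h9, h6]⟩,
      mem_insert_self _ _⟩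
    intro x hx y hy hxy
    have hx' : x ∈ insert z ρ := by exact_mod_cast hx
    have hy' : y ∈ insert z ρ := by exact_mod_cast hy
    rw [mem_insert] at hx' hy'
    rcases hx' with rfl | hx'
    · rcases hy' with rfl | hy'
      · exact absurd rfl hxy
      · exact (h8 y hy').symm
    · rcases hy' with rfl | hy'
      · exact h8 x hx'
      · exact h5 (by exact_mod_cast hx') (by exact_mod_cast hy') hxy
  · rintro ⟨τ, z⟩ h
    rw [mem_sigma] at h
    simp only [insert_erase h.2]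
  · rintro ⟨ρ, z⟩ h
    rw [mem_sigma] at h
    have h9 : z ∉ ρ := fun h1 => G.loopless.irrefl z ((mem_nbrsOf.1 h.2).2 z h1)
    simp only [erase_insert h9]

theorem cl_zero (G : SimpleGraph X) (A : Finset X) : cl G A 0 = {∅} := by
  ext τ
  rw [mem_cl, mem_singleton, card_eq_zero]
  constructor
  · exact fun h => h.2
  · rintro rfl
    simp

theorem nbrsOf_empty (G : SimpleGraph X) (A : Finset X) : nbrsOf G A ∅ = A := by
  ext z
  rw [mem_nbrsOf]
  simp

theorem nbrsOf_singleton (G : SimpleGraph X) (A : Finset X) (u : X) :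
    nbrsOf G A {u} = nbr G A u := by
  ext z
  rw [mem_nbrsOf, mem_nbr]
  simp

theorem card_cl_one (G : SimpleGraph X) (A : Finset X) : (cl G A 1).card = A.card := by
  have h := clique_count G A 0
  rw [cl_zero, sum_singleton, nbrsOf_empty] at h
  simpa using h

theorem sum_cl_one (G : SimpleGraph X) (A : Finset X) (f : Finset X → ℕ) :
    ∑ ρ ∈ cl G A 1, f ρ = ∑ u ∈ A, f {u} := by
  classical
  symm
  refine sum_bij (fun u _ => {u}) ?_ ?_ ?_ ?_
  · intro u hu
    rw [mem_cl]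
    exact ⟨⟨singleton_subset_iff.2 hu, by simp⟩, card_singleton u⟩
  · intro a _ b _ h
    exact singleton_injective h
  · intro τ hτ
    rw [mem_cl] at hτ
    obtain ⟨u, rfl⟩ := card_eq_one.1 hτ.2
    exact ⟨u, hτ.1.1 (mem_singleton_self u), rfl⟩
  · intro u _
    rfl

theorem card_cl_two (G : SimpleGraph X) (A : Finset X) :
    2 * (cl G A 2).card = ∑ u ∈ A, (nbr G A u).card := by
  have h := clique_count G A 1
  rw [sum_cl_one G A (fun ρ => (nbrsOf G A ρ).card)] at h
  simp only [nbrsOf_singleton] at h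
  exact h

theorem conn_of_connected {G : SimpleGraph X} {B : Finset X} {S : Set X}
    (hBS : ∀ x, x ∈ B ↔ x ∈ S) (h : (G.induce S).Connected) : Conn G B := by
  refine ⟨?_, fun P hP hcl x hx => ?_⟩
  · obtain ⟨x⟩ := h.nonempty
    exact ⟨x.1, (hBS _).2 x.2⟩
  · obtain ⟨x0, hx0, h0⟩ := hP
    obtain ⟨p⟩ := h.preconnected ⟨x0, (hBS _).1 hx0⟩ ⟨x, (hBS _).1 hx⟩
    have key : ∀ a b : S, (G.induce S).Walk a b → P a.1 → P b.1 := by
      intro a b p
      induction p with
      | nil => exact id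
      | cons hab q ih =>
        intro ha
        exact ih (hcl _ ((hBS _).2 (Subtype.coe_prop _)) ha _ ((hBS _).2 (Subtype.coe_prop _)) hab)
    exact key _ _ p h0

section

variable {G : SimpleGraph X} {A : Finset X}

theorem Sphere2.two (h : Sphere2 G A) : ∀ u ∈ A, ∀ w ∈ A, G.Adj u w →
    ∃ x y, Two G A u w x y := by
  intro u hu w hw huw
  obtain ⟨x, hx, y, hy, hxy, hn, hz⟩ := h.edge u hu w hw huw
  have hx' := (hz x hx).2 (Or.inl rfl)
  have hy' := (hz y hy).2 (Or.inr rfl)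
  exact ⟨x, y, hx, hy, hxy, hn, hx'.1.symm, hx'.2.symm, hy'.1.symm, hy'.2.symm,
    fun z hzA h1 h2 => (hz z hzA).1 ⟨h1.symm, h2.symm⟩⟩

/-- Cliques have at most three vertices. -/
theorem clique_le_three (h : ∀ u ∈ A, ∀ w ∈ A, G.Adj u w → ∃ x y, Two G A u w x y)
    {τ : Finset X} (hτ : τ ⊆ A) (hc : G.IsClique (τ : Set X)) : τ.card ≤ 3 := by
  classical
  by_contra hcon
  push Not at hcon
  obtain ⟨u, hu⟩ : τ.Nonempty := card_pos.1 (by omega)
  have h1 : (τ.erase u).card + 1 = τ.card := card_erase_add_one hu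
  obtain ⟨w, hw⟩ : (τ.erase u).Nonempty := card_pos.1 (by omega)
  have h2 : ((τ.erase u).erase w).card + 1 = (τ.erase u).card := card_erase_add_one hw
  obtain ⟨p, hp, q, hq, hpq⟩ : ∃ p ∈ (τ.erase u).erase w, ∃ q ∈ (τ.erase u).erase w, p ≠ q :=
    one_lt_card.1 (by omega)
  rw [mem_erase] at hw
  simp only [mem_erase] at hp hq
  have adj : ∀ a ∈ τ, ∀ b ∈ τ, a ≠ b → G.Adj a b := fun a ha b hb hab =>
    hc (by exact_mod_cast ha) (by exact_mod_cast hb) hab
  obtain ⟨x, y, hT⟩ := h u (hτ hu) w (hτ hw.2) (adj u hu w hw.2 (Ne.symm hw.1))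
  have h3 := hT.only p (hτ hp.2.2) (adj u hu p hp.2.2 (Ne.symm hp.2.1))
    (adj w hw.2 p hp.2.2 (Ne.symm hp.1))
  have h4 := hT.only q (hτ hq.2.2) (adj u hu q hq.2.2 (Ne.symm hq.2.1))
    (adj w hw.2 q hq.2.2 (Ne.symm hq.1))
  have h5 := adj p hp.2.2 q hq.2.2 hpq
  rcases h3 with rfl | rfl
  · rcases h4 with rfl | rfl
    · exact hpq rfl
    · exact hT.nadj h5
  · rcases h4 with rfl | rfl
    · exact hT.nadj h5.symm
    · exact hpq rfl

/-- Three times the number of triangles is twice the number of edges. -/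
theorem card_cl_three (h : ∀ u ∈ A, ∀ w ∈ A, G.Adj u w → ∃ x y, Two G A u w x y) :
    3 * (cl G A 3).card = 2 * (cl G A 2).card := by
  classical
  rw [clique_count G A 2]
  have h1 : ∀ ρ ∈ cl G A 2, (nbrsOf G A ρ).card = 2 := by
    intro ρ hρ
    obtain ⟨⟨h1, h2⟩, h3⟩ := mem_cl.1 hρ
    obtain ⟨u, w, huw, rfl⟩ := card_eq_two.1 h3
    obtain ⟨x, y, hT⟩ := h u (h1 (by simp)) w (h1 (by simp))
      (h2 (by simp) (by simp) huw)
    have h4 : nbrsOf G A {u, w} = {x, y} := by
      rw [← hT.nbr2_eq]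
      ext z
      rw [mem_nbrsOf, mem_nbr2]
      simp
    rw [h4, card_pair hT.ne]
  rw [sum_congr rfl h1, sum_const, smul_eq_mul, mul_comm]

/-- The sum of the degrees. -/
theorem Sphere2.degree (h : Sphere2 G A) : ∑ u ∈ A, (nbr G A u).card + 12 = 6 * A.card := by
  classical
  have h1 := card_cl_one G A
  have h2 := card_cl_two G A
  have h3 := card_cl_three h.two
  have h0 : (cl G A 0).card = 1 := by rw [cl_zero, card_singleton]
  have h4 : ∑ τ ∈ cliquesIn G A, (-1 : ℤ) ^ τ.card =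
      ∑ k ∈ range 4, ∑ τ ∈ (cliquesIn G A).filter (fun τ => τ.card = k), (-1 : ℤ) ^ τ.card := by
    refine (sum_fiberwise_of_maps_to (fun τ hτ => ?_) _).symm
    rw [mem_cliquesIn] at hτ
    rw [mem_range]
    have := clique_le_three h.two hτ.1 hτ.2
    omega
  have h5 : ∀ k, ∑ τ ∈ (cliquesIn G A).filter (fun τ => τ.card = k), (-1 : ℤ) ^ τ.card =
      ((cl G A k).card : ℤ) * (-1) ^ k := by
    intro k
    rw [sum_congr rfl (fun τ hτ => by rw [(mem_filter.1 hτ).2]), sum_const, nsmul_eq_mul]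
    rfl
  have h6 := h.euler
  rw [h4, sum_congr rfl (fun k _ => h5 k)] at h6
  simp only [sum_range_succ, sum_range_zero] at h6
  norm_num at h6
  omega

/-- A flag triangulation of the 2-sphere in the sense of `Sphere2` satisfies `Sph`. -/
theorem Sphere2.sph (h : Sphere2 G A) : Sph G A where
  two := h.two
  link := fun u hu => conn_of_connected (fun x => by rw [mem_nbr]; rfl) (h.link u hu)
  conn := conn_of_connected (fun x => by simp) h.conn
  euler := h.degree

end

end Pool.Agent.Helper1.S2
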