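import Pool.Agent.Helper1.S2.Count
import Pool.Agent.Helper61.FS.Main

/-!
# Flag 3-manifolds satisfy the conditions of `cd_rel` for `n = 2`
-/

open Finset

namespace Pool.Agent.Helper1.S2

open Pool.Agent.Helper51.CD Pool.Agent.Helper51.CD.Cube

variable {X : Type} {G : SimpleGraph X} {A : Finset X}

theorem Conn.cn {C : Finset X} (h : Conn G C) : Pool.Agent.Helper61.FS.Cn G C := by
  intro S hS hne hcl
  refine Subset.antisymm hS (fun x hx => ?_)
  refine h.cl (· ∈ S) ?_ (fun a ha hSa b hb hab => hcl a hSa b hb hab) x hx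
  obtain ⟨y, hy⟩ := hne
  exact ⟨y, hS hy, hy⟩

theorem Sph.sph61 (h : Sph G A) : Pool.Agent.Helper61.FS.Sph G A where
  two := by
    classical
    intro v hv a ha
    rw [mem_nbr] at ha
    obtain ⟨x, y, hT⟩ := h.two v hv a ha.1 ha.2
    have h1 : nbr G (nbr G A v) a = nbr2 G A v a := by
      ext z
      rw [mem_nbr, mem_nbr, mem_nbr2, and_assoc]
    rw [h1, hT.nbr2_eq, card_pair hT.ne]
  big := by
    classical
    intro v hv
    obtain ⟨a, ha⟩ := (h.link v hv).ne
    rw [mem_nbr] at ha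
    obtain ⟨x, y, hT⟩ := h.two v hv a ha.1 ha.2
    obtain ⟨b, hT'⟩ := h.other hv hT.hx hT.ux ha.1 ha.2 hT.wx.symm
    have hsub : ({a, x, y, b} : Finset X) ⊆ nbr G A v := by
      intro z hz
      simp only [mem_insert, mem_singleton] at hz
      rw [mem_nbr]
      rcases hz with rfl | rfl | rfl | rfl
      · exact ha
      · exact ⟨hT.hx, hT.ux⟩
      · exact ⟨hT.hy, hT.uy⟩
      · exact ⟨hT'.hy, hT'.uy⟩
    have hcard : ({a, x, y, b} : Finset X).card = 4 := by
      have e1 : a ≠ x := hT.wx.ne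
      have e2 : a ≠ y := hT.wy.ne
      have e3 : a ≠ b := hT'.ne
      have e4 : x ≠ y := hT.ne
      have e5 : x ≠ b := hT'.wy.ne
      have e6 : y ≠ b := fun e => hT.nadj (e ▸ hT'.wy)
      rw [card_insert_of_notMem (by simp [e1, e2, e3]),
        card_insert_of_notMem (by simp [e4, e5]), card_pair e6]
    rw [← hcard]
    exact card_le_card hsub
  lconn := fun v hv => (h.link v hv).cn
  conn := h.conn.cn
  deg := h.euler

/-- **Flag 2-spheres are tame.** -/
theorem Sphere2.tame [DecidableEq X] (h : Sphere2 G A) :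
    TameK G (cliquesIn G A : Set (Finset X)) :=
  Pool.Agent.Helper61.FS.sph_tame h.sph.sph61

theorem Sphere2.card_le (h : Sphere2 G A) {τ : Finset X} (hτ : τ ⊆ A)
    (hc : G.IsClique (τ : Set X)) : τ.card ≤ 3 :=
  clique_le_three h.two hτ hc

section

variable [Fintype X]

theorem commonNbrs_erase [DecidableEq X] {ρ : Finset X} {v : X} (hv : v ∈ ρ) {z : X} :
    z ∈ commonNbrs G ρ ↔ z ∈ nbrsOf G (commonNbrs G {v}) (ρ.erase v) := by
  rw [mem_nbrsOf, mem_commonNbrs, mem_commonNbrs]
  constructor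
  · intro h
    exact ⟨fun u hu => h u (by rw [mem_singleton] at hu; exact hu ▸ hv),
      fun u hu => h u (mem_erase.1 hu).2⟩
  · rintro ⟨h1, h2⟩ u hu
    by_cases huv : u = v
    · exact huv ▸ h1 v (mem_singleton_self v)
    · exact h2 u (mem_erase.2 ⟨huv, hu⟩)

theorem erase_sub [DecidableEq X] {ρ : Finset X} (hρ : G.IsClique (ρ : Set X)) {v : X}
    (hv : v ∈ ρ) : ρ.erase v ⊆ commonNbrs G {v} ∧
      G.IsClique ((ρ.erase v : Finset X) : Set X) := by
  refine ⟨fun x hx => ?_, hρ.subset (by exact_mod_cast (erase_subset v ρ))⟩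
  rw [mem_erase] at hx
  rw [mem_commonNbrs]
  intro u hu
  rw [mem_singleton] at hu
  rw [hu]
  exact hρ (by exact_mod_cast hv) (by exact_mod_cast hx.2) (Ne.symm hx.1)

/-- Cliques have at most four vertices. -/
theorem card_le_four (h : ∀ v, Sphere2 G (commonNbrs G {v})) (ρ : Finset X)
    (hρ : G.IsClique (ρ : Set X)) : ρ.card ≤ 4 := by
  classical
  rcases ρ.eq_empty_or_nonempty with rfl | ⟨v, hv⟩
  · simp
  · obtain ⟨h1, h2⟩ := erase_sub hρ hv
    have h3 := (h v).card_le h1 h2
    have h4 := card_erase_add_one hv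
    omega

/-- The links of the odd cliques are tame. -/
theorem tame_odd [DecidableEq X] (h : ∀ v, Sphere2 G (commonNbrs G {v})) (ρ : Finset X)
    (hρ : G.IsClique (ρ : Set X)) (ho : Odd ρ.card) :
    TameK G (cliquesIn G (commonNbrs G ρ) : Set (Finset X)) := by
  have h4 := card_le_four h ρ hρ
  have h5 : ρ.card = 1 ∨ ρ.card = 3 := by
    obtain ⟨k, hk⟩ := ho
    omega
  rcases h5 with h5 | h5
  · obtain ⟨v, rfl⟩ := card_eq_one.1 h5
    exact (h v).tame
  · obtain ⟨v, hv⟩ : ρ.Nonempty := card_pos.1 (by omega)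
    obtain ⟨h1, h2⟩ := erase_sub hρ hv
    have h6 := card_erase_add_one hv
    obtain ⟨a, b, hab, he⟩ := card_eq_two.1 (show (ρ.erase v).card = 2 by omega)
    have ha : a ∈ ρ.erase v := by rw [he]; simp
    have hb : b ∈ ρ.erase v := by rw [he]; simp
    obtain ⟨x, y, hT⟩ := (h v).two a (h1 ha) b (h1 hb)
      (h2 (by exact_mod_cast ha) (by exact_mod_cast hb) hab)
    have h7 : commonNbrs G ρ = {x, y} := by
      rw [← hT.nbr2_eq]
      ext z
      rw [commonNbrs_erase hv, he, mem_nbrsOf, mem_nbr2]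
      simp
    have h8 : (cliquesIn G (commonNbrs G ρ) : Set (Finset X)) = fam G ∅ {x, y} := by
      rw [h7]
      ext τ
      rw [mem_coe, mem_cliquesIn, mem_fam_empty]
    rw [h8]
    exact tame_pair hT.ne hT.nadj

/-- The links of the edges are nonempty. -/
theorem exact_two [LinearOrder X] (h : ∀ v, Sphere2 G (commonNbrs G {v})) (ρ : Finset X)
    (hρ : G.IsClique (ρ : Set X)) (hne : ρ.Nonempty) (he : Even ρ.card) (j : ℕ)
    (hj : 2 * j + ρ.card < 4) : ExactLink G ρ j := by
  have h0 := card_pos.2 hne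
  have h5 : ρ.card = 2 ∧ j = 0 := by
    obtain ⟨k, hk⟩ := he
    omega
  obtain ⟨h5, rfl⟩ := h5
  obtain ⟨v, hv⟩ := hne
  obtain ⟨h1, h2⟩ := erase_sub hρ hv
  have h6 := card_erase_add_one hv
  obtain ⟨a, hea⟩ := card_eq_one.1 (show (ρ.erase v).card = 1 by omega)
  have ha : a ∈ commonNbrs G {v} := h1 (by rw [hea]; simp)
  obtain ⟨z, hz⟩ := ((h v).sph.link a ha).ne
  have hz' : z ∈ commonNbrs G ρ := by
    rw [commonNbrs_erase hv, hea, nbrsOf_singleton]
    exact hz
  intro f hf
  have h7 := hf {z} (by rw [mem_cliquesIn]; simp [hz']) (by simp)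
  rw [sum_singleton, erase_singleton] at h7
  have h8 : f ∅ = 0 := by
    have h9 : sg z ({z} : Finset X) = 1 := by
      unfold sg
      have : (({z} : Finset X).filter (fun y => y < z)) = ∅ := by
        rw [filter_eq_empty_iff]
        intro y hy
        rw [mem_singleton] at hy
        rw [hy]
        exact lt_irrefl z
      rw [this, card_empty, pow_zero]
    rw [h9, one_mul] at h7
    exact h7
  refine ⟨fun _ => 0, fun τ _ hc => ?_⟩
  rw [card_eq_zero] at hc
  rw [hc, h8]
  simp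

end

/-- **Flag triangulations of 3-manifolds** (the link of every vertex is a 2-sphere) satisfy all
conditions on the links for `n = 2`. -/
theorem sphere2_target [Fintype X] [LinearOrder X] (h : ∀ v, Sphere2 G (commonNbrs G {v})) :
    (∀ ρ : Finset X, G.IsClique (ρ : Set X) → ρ.card ≤ 4) ∧
    (∀ ρ : Finset X, G.IsClique (ρ : Set X) → Odd ρ.card →
      TameK G (cliquesIn G (commonNbrs G ρ) : Set (Finset X))) ∧
    (∀ ρ : Finset X, G.IsClique (ρ : Set X) → ρ.Nonempty → Even ρ.card → ∀ j : ℕ,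
      2 * j + ρ.card < 4 → ExactLink G ρ j) :=
  ⟨card_le_four h, tame_odd h, exact_two h⟩

end Pool.Agent.Helper1.S2
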